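import Pool.Agent.Helper64.LN.GoalsB

/-!
# Packet LN-AX: the axis as a curve
-/

set_option autoImplicit false

open Topology Filter Set Metric UpperHalfPlane
open scoped MatrixGroups

namespace Pool.Agent.Helper69.LN

open Pool.Agent.Helper64.LN

/-- The point `i y`. -/
noncomputable def iy (y : ℝ) (hy : 0 < y) : ℍ := ⟨(y : ℂ) * Complex.I, by simpa using hy⟩

lemma iy_re (y : ℝ) (hy : 0 < y) : (iy y hy).re = 0 := by
  change ((y : ℂ) * Complex.I).re = 0
  simp

lemma iy_im (y : ℝ) (hy : 0 < y) : (iy y hy).im = y := by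
  change ((y : ℂ) * Complex.I).im = y
  simp

lemma sf_iy (g : SL(2, ℝ)) (y : ℝ) (hy : 0 < y) : sf g (iy y hy) = g 1 0 * y ^ 2 - g 0 1 := by
  unfold sf
  rw [iy_re, iy_im]
  ring

/-- The real powers on the imaginary axis. -/
noncomputable def al0 (q : ℝ) (hq : 1 < q) : C(ℝ, ℍ) where
  toFun t := iy (q ^ t) (Real.rpow_pos_of_pos (by linarith) t)
  continuous_toFun := by
    apply Continuous.upperHalfPlaneMk
    have h : Continuous fun t : ℝ => q ^ t :=
      continuous_const.rpow continuous_id (fun t => Or.inl (by linarith))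
    exact (Complex.continuous_ofReal.comp h).mul continuous_const

lemma al0_apply (q : ℝ) (hq : 1 < q) (t : ℝ) :
    al0 q hq t = iy (q ^ t) (Real.rpow_pos_of_pos (by linarith) t) := rfl

lemma eig (a b c e l : ℝ) (h : (a - l) * (e - l) - b * c = 0) :
    ∃ x y : ℝ, ¬ (x = 0 ∧ y = 0) ∧ a * x + b * y = l * x ∧ c * x + e * y = l * y := by
  by_cases hb : b = 0
  · by_cases hc : c = 0
    · have h1 : (a - l) * (e - l) = 0 := by rw [hb, zero_mul, sub_zero] at h; exact h
      rcases mul_eq_zero.1 h1 with h2 | h2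
      · refine ⟨1, 0, by simp, ?_, ?_⟩
        · linarith
        · rw [hc]; ring
      · refine ⟨0, 1, by simp, ?_, ?_⟩
        · rw [hb]; ring
        · linarith
    · refine ⟨l - e, c, fun h => hc h.2, ?_, ?_⟩
      · linear_combination (-1) * h
      · ring
  · refine ⟨b, l - a, fun h => hb h.1, ?_, ?_⟩
    · ring
    · linear_combination (-1) * h

lemma diag (d : SL(2, ℝ)) (h : 2 < |d 0 0 + d 1 1|) :
    ∃ (m : ℝ) (M : SL(2, ℝ)), 1 < |m| ∧ m ≠ 0 ∧
      (d 0 0 * M 0 0 + d 0 1 * M 1 0 = m * M 0 0 ∧ d 1 0 * M 0 0 + d 1 1 * M 1 0 = m * M 1 0) ∧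
      d 0 0 * M 0 1 + d 0 1 * M 1 1 = m⁻¹ * M 0 1 ∧
      d 1 0 * M 0 1 + d 1 1 * M 1 1 = m⁻¹ * M 1 1 := by
  have hdet := d.det_coe
  rw [Matrix.det_fin_two] at hdet
  obtain ⟨a, ha⟩ : ∃ a, a = d 0 0 := ⟨_, rfl⟩
  obtain ⟨b, hb⟩ : ∃ b, b = d 0 1 := ⟨_, rfl⟩
  obtain ⟨c, hc⟩ : ∃ c, c = d 1 0 := ⟨_, rfl⟩
  obtain ⟨e, he⟩ : ∃ e, e = d 1 1 := ⟨_, rfl⟩
  rw [← ha, ← hb, ← hc, ← he] at hdet ⊢
  rw [← ha, ← he] at h
  -- the eigenvalue
  have hm : ∃ m : ℝ, 1 < |m| ∧ m ^ 2 - (a + e) * m + 1 = 0 := by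
    have hT : 4 < (a + e) ^ 2 := by
      have := sq_lt_sq' (by linarith : -|a + e| < 2) h
      rw [sq_abs] at this
      linarith
    have hs := Real.sq_sqrt (by linarith : 0 ≤ (a + e) ^ 2 - 4)
    have hs0 := Real.sqrt_pos.2 (by linarith : 0 < (a + e) ^ 2 - 4)
    rcases lt_abs.1 h with h1 | h1
    · refine ⟨((a + e) + Real.sqrt ((a + e) ^ 2 - 4)) / 2, ?_, ?_⟩
      · rw [lt_abs]
        left
        linarith
      · linear_combination (1 / 4) * hs
    · refine ⟨((a + e) - Real.sqrt ((a + e) ^ 2 - 4)) / 2, ?_, ?_⟩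
      · rw [lt_abs]
        right
        linarith
      · linear_combination (1 / 4) * hs
  obtain ⟨m, hm1, hm2⟩ := hm
  have hm0 : m ≠ 0 := by
    rintro rfl
    simp at hm1
    linarith
  have hn : m⁻¹ = a + e - m := by
    have : m * (a + e - m) = 1 := by linear_combination (-1) * hm2
    exact inv_eq_of_mul_eq_one_right this
  have hmn : m ≠ m⁻¹ := by
    intro h1
    have h2 : m * m = 1 := by
      nth_rewrite 2 [h1]
      exact mul_inv_cancel₀ hm0
    have h3 : |m| ^ 2 = 1 := by rw [sq_abs]; nlinarith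
    nlinarith
  obtain ⟨x, y, hxy, e1, e2⟩ := eig a b c e m (by linear_combination hm2 + hdet)
  obtain ⟨x', y', hxy', e1', e2'⟩ := eig a b c e m⁻¹ (by
    rw [hn]
    linear_combination hm2 + hdet)
  have hδ : x * y' - x' * y ≠ 0 := by
    intro h0
    have h1 : (m - m⁻¹) * (x * x') = 0 := by
      linear_combination (-x') * e1 + x * e1' - b * h0
    have h2 : (m - m⁻¹) * (y * y') = 0 := by
      linear_combination (-y') * e2 + y * e2' + c * h0
    have h3 : m - m⁻¹ ≠ 0 := sub_ne_zero.2 hmn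
    have h4 : x * x' = 0 := (mul_eq_zero.1 h1).resolve_left h3
    have h5 : y * y' = 0 := (mul_eq_zero.1 h2).resolve_left h3
    by_cases hx : x = 0
    · have hy : y ≠ 0 := fun hy => hxy ⟨hx, hy⟩
      have hy' : y' = 0 := (mul_eq_zero.1 h5).resolve_left hy
      have hx' : x' ≠ 0 := fun hx' => hxy' ⟨hx', hy'⟩
      rw [hx, zero_mul, zero_sub, neg_eq_zero] at h0
      rcases mul_eq_zero.1 h0 with h6 | h6
      · exact hx' h6
      · exact hy h6
    · have hx' : x' = 0 := (mul_eq_zero.1 h4).resolve_left hx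
      have hy' : y' ≠ 0 := fun hy' => hxy' ⟨hx', hy'⟩
      rw [hx', zero_mul, sub_zero] at h0
      rcases mul_eq_zero.1 h0 with h6 | h6
      · exact hx h6
      · exact hy' h6
  refine ⟨m, ⟨!![x, x' / (x * y' - x' * y); y, y' / (x * y' - x' * y)], ?_⟩, hm1, hm0, ⟨?_, ?_⟩,
    ?_, ?_⟩
  · rw [Matrix.det_fin_two_of]
    field_simp
  · simpa using e1
  · simpa using e2
  · change a * (x' / (x * y' - x' * y)) + b * (y' / (x * y' - x' * y)) =
      m⁻¹ * (x' / (x * y' - x' * y))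
    rw [← mul_div_assoc, ← mul_div_assoc, ← mul_div_assoc, ← add_div, e1']
  · change c * (x' / (x * y' - x' * y)) + e * (y' / (x * y' - x' * y)) =
      m⁻¹ * (y' / (x * y' - x' * y))
    rw [← mul_div_assoc, ← mul_div_assoc, ← mul_div_assoc, ← add_div, e2']

/-- The diagonal matrix. -/
noncomputable def Dm (m : ℝ) (hm : m ≠ 0) : SL(2, ℝ) :=
  ⟨!![m, 0; 0, m⁻¹], by rw [Matrix.det_fin_two_of]; simp [hm]⟩

lemma Dm_smul (m : ℝ) (hm : m ≠ 0) (z : ℍ) :
    (Dm m hm • z).re = m ^ 2 * z.re ∧ (Dm m hm • z).im = m ^ 2 * z.im := by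
  obtain ⟨e1, e2⟩ := smul_eqs (Dm m hm) z
  have h00 : (Dm m hm) 0 0 = m := rfl
  have h01 : (Dm m hm) 0 1 = 0 := rfl
  have h10 : (Dm m hm) 1 0 = 0 := rfl
  have h11 : (Dm m hm) 1 1 = m⁻¹ := rfl
  rw [h00, h01, h10, h11] at e1
  rw [h00, h10, h11] at e2
  simp only [zero_mul, mul_zero, zero_add, sub_zero, add_zero] at e1 e2
  constructor
  · field_simp at e1
    linarith
  · field_simp at e2
    linarith

lemma mul_entry (g h : SL(2, ℝ)) (i j : Fin 2) :
    (g * h) i j = g i 0 * h 0 j + g i 1 * h 1 j := by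
  rw [Matrix.SpecialLinearGroup.coe_mul, Matrix.mul_apply, Fin.sum_univ_two]

theorem goalAX (hG1 : GoalG1) (hCR1 : GoalCR1) (hCR2 : GoalCR2) : GoalAX := by
  intro Γ hΓ d hd htr
  obtain ⟨m, M, hm1, hm0, ⟨hv1, hv2⟩, hw1, hw2⟩ := diag d htr
  have hq : 1 < m ^ 2 := by
    rw [← sq_abs]
    nlinarith
  have hdM : d * M = M * Dm m hm0 := by
    ext i j
    rw [mul_entry, mul_entry]
    fin_cases i <;> fin_cases j
    · change d 0 0 * M 0 0 + d 0 1 * M 1 0 = M 0 0 * m + M 0 1 * 0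
      linarith
    · change d 0 0 * M 0 1 + d 0 1 * M 1 1 = M 0 0 * 0 + M 0 1 * m⁻¹
      linarith
    · change d 1 0 * M 0 0 + d 1 1 * M 1 0 = M 1 0 * m + M 1 1 * 0
      linarith
    · change d 1 0 * M 0 1 + d 1 1 * M 1 1 = M 1 0 * 0 + M 1 1 * m⁻¹
      linarith
  have hd2 : d = M * Dm m hm0 * M⁻¹ := by
    rw [← hdM]
    group
  have hDsf : ∀ z : ℍ, sf (Dm m hm0) z = (m⁻¹ - m) * z.re := by
    intro z
    unfold sf
    change 0 * (z.re ^ 2 + z.im ^ 2) + (m⁻¹ - m) * z.re - 0 = _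
    ring
  have hmm : m⁻¹ - m ≠ 0 := by
    intro h1
    have h2 : m⁻¹ = m := by linarith
    have h3 : m * m = 1 := by
      nth_rewrite 2 [← h2]
      exact mul_inv_cancel₀ hm0
    nlinarith
  have hact : ∀ t, M • al0 (m ^ 2) hq (t + 1) = d • (M • al0 (m ^ 2) hq t) := by
    intro t
    rw [← mul_smul, hdM, mul_smul]
    congr 1
    obtain ⟨h1, h2⟩ := Dm_smul m hm0 (al0 (m ^ 2) hq t)
    apply UpperHalfPlane.ext_re_im
    · rw [h1, al0_apply, al0_apply, iy_re, iy_re, mul_zero]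
    · rw [h2, al0_apply, al0_apply, iy_im, iy_im, Real.rpow_add (by linarith), Real.rpow_one]
      ring
  refine ⟨⟨fun t => M • al0 (m ^ 2) hq t, ?_⟩, hact, ?_, ?_, ?_⟩
  · exact (mh M).continuous.comp (al0 (m ^ 2) hq).continuous
  · intro t
    change sf d (M • al0 (m ^ 2) hq t) = 0
    rw [hd2]
    obtain ⟨s, hs, e⟩ := sf_smul_pos M (Dm m hm0) (al0 (m ^ 2) hq t)
    rw [e, hDsf, al0_apply, iy_re]
    ring
  · intro z hz
    obtain ⟨s, hs, e⟩ := sf_smul_pos M (Dm m hm0) (M⁻¹ • z)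
    rw [← hd2, smul_inv_smul, hz, hDsf] at e
    have hre : (M⁻¹ • z).re = 0 := by
      have h1 : s * (m⁻¹ - m) ≠ 0 := mul_ne_zero hs.ne' hmm
      have h2 : s * (m⁻¹ - m) * (M⁻¹ • z).re = 0 := by linarith
      exact (mul_eq_zero.1 h2).resolve_left h1
    refine ⟨Real.logb (m ^ 2) (M⁻¹ • z).im, ?_⟩
    change M • al0 (m ^ 2) hq _ = z
    rw [← eq_inv_smul_iff]
    apply UpperHalfPlane.ext_re_im
    · rw [hre, al0_apply, iy_re]
    · rw [al0_apply, iy_im, Real.rpow_logb (by linarith) (by linarith) (UpperHalfPlane.im_pos _)]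
  · intro g hg hgtr hnc
    change (Cr Sp (mh g) (mh d) → ∃ t, sf g (M • al0 (m ^ 2) hq t) = 0) ∧
          ∀ t₀, sf g (M • al0 (m ^ 2) hq t₀) = 0 → Cr Sp (mh g) (mh d) ∧
            (∀ t, t ≠ t₀ → sf g (M • al0 (m ^ 2) hq t) ≠ 0) ∧
            ∀ s t, s < t₀ → t₀ < t → sf g (M • al0 (m ^ 2) hq s) * sf g (M • al0 (m ^ 2) hq t) < 0
    obtain ⟨g', hg'⟩ : ∃ g', g' = M⁻¹ * g * M := ⟨_, rfl⟩
    have hgg : g = M * g' * M⁻¹ := by rw [hg']; group
    have hgM : g * M = M * g' := by rw [hg']; group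
    have hval : ∀ t, ∃ s : ℝ, 0 < s ∧ sf g (M • al0 (m ^ 2) hq t) =
        s * (g' 1 0 * ((m ^ 2) ^ t) ^ 2 - g' 0 1) := by
      intro t
      obtain ⟨s, hs, e⟩ := sf_smul_pos M g' (al0 (m ^ 2) hq t)
      refine ⟨s, hs, ?_⟩
      rw [hgg, e, al0_apply, sf_iy]
    have hM1 := M.det_coe
    rw [Matrix.det_fin_two] at hM1
    have hvne : (M 0 0, M 1 0) ≠ (0 : ℝ × ℝ) := by
      intro h
      have h1 := congrArg Prod.fst h
      have h2 := congrArg Prod.snd h
      simp only [Prod.fst_zero, Prod.snd_zero] at h1 h2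
      rw [h1, h2] at hM1
      simp at hM1
    have hwne : (M 0 1, M 1 1) ≠ (0 : ℝ × ℝ) := by
      intro h
      have h1 := congrArg Prod.fst h
      have h2 := congrArg Prod.snd h
      simp only [Prod.fst_zero, Prod.snd_zero] at h1 h2
      rw [h1, h2] at hM1
      simp at hM1
    have hent : ∀ i j, g i 0 * M 0 j + g i 1 * M 1 j = M i 0 * g' 0 j + M i 1 * g' 1 j := by
      intro i j
      rw [← mul_entry, ← mul_entry, hgM]
    have hc : g' 1 0 ≠ 0 := by
      intro hc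
      apply hnc
      refine hG1 Γ hΓ g hg d hd (M 0 0, M 1 0) (g' 0 0) m hvne ?_ ?_ hv1 hv2
      · have := hent 0 0
        rw [hc] at this
        simp only
        linarith
      · have := hent 1 0
        rw [hc] at this
        simp only
        linarith
    have hb : g' 0 1 ≠ 0 := by
      intro hb
      apply hnc
      refine hG1 Γ hΓ g hg d hd (M 0 1, M 1 1) (g' 1 1) m⁻¹ hwne ?_ ?_ hw1 hw2
      · have := hent 0 1
        rw [hb] at this
        simp only
        linarith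
      · have := hent 1 1
        rw [hb] at this
        simp only
        linarith
    have hqv : qf g (M 0 0, M 1 0) = g' 1 0 := by
      have h := qf_smul M g' (1, 0)
      rw [← hgg] at h
      simp only [mul_one, mul_zero, add_zero] at h
      rw [h]
      unfold qf
      simp
    have hqw : qf g (M 0 1, M 1 1) = - g' 0 1 := by
      have h := qf_smul M g' (0, 1)
      rw [← hgg] at h
      simp only [mul_one, mul_zero, zero_add] at h
      rw [h]
      unfold qf
      simp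
    have hmd : mh d ≠ 1 := by
      intro h
      rw [← map_one mh] at h
      rcases (mh_eq_iff d 1).1 h with h1 | h1
      · rw [h1] at htr
        simp at htr
        norm_num at htr
      · rw [h1] at htr
        have e1 : (-1 : SL(2, ℝ)) 0 0 = -1 := by simp
        have e2 : (-1 : SL(2, ℝ)) 1 1 = -1 := by simp
        rw [e1, e2] at htr
        norm_num at htr
    have hmd' : mh d⁻¹ ≠ 1 := by
      rw [map_inv]
      exact inv_ne_one.2 hmd
    have hAv : Att d (M 0 0, M 1 0) := ⟨hvne, m, hm1.le, hv1, hv2⟩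
    have hAw : Att d⁻¹ (M 0 1, M 1 1) := by
      refine ⟨hwne, m, hm1.le, ?_, ?_⟩
      · have e1 : (d⁻¹) 0 0 = d 1 1 := by
          simp [Matrix.SpecialLinearGroup.coe_inv, Matrix.adjugate_fin_two]
        have e2 : (d⁻¹) 0 1 = - d 0 1 := by
          simp [Matrix.SpecialLinearGroup.coe_inv, Matrix.adjugate_fin_two]
        rw [e1, e2]
        have hdet := d.det_coe
        rw [Matrix.det_fin_two] at hdet
        have h3 : m * (m⁻¹ * M 0 1) = M 0 1 := by
          rw [← mul_assoc, mul_inv_cancel₀ hm0, one_mul]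
        have h4 : m * (m⁻¹ * M 1 1) = M 1 1 := by
          rw [← mul_assoc, mul_inv_cancel₀ hm0, one_mul]
        simp only
        linear_combination (m * M 0 1) * hdet - (d 1 1) * h3 + (d 0 1) * h4 -
          (m * d 1 1) * hw1 + (m * d 0 1) * hw2
      · have e1 : (d⁻¹) 1 0 = - d 1 0 := by
          simp [Matrix.SpecialLinearGroup.coe_inv, Matrix.adjugate_fin_two]
        have e2 : (d⁻¹) 1 1 = d 0 0 := by
          simp [Matrix.SpecialLinearGroup.coe_inv, Matrix.adjugate_fin_two]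
        rw [e1, e2]
        have hdet := d.det_coe
        rw [Matrix.det_fin_two] at hdet
        have h3 : m * (m⁻¹ * M 0 1) = M 0 1 := by
          rw [← mul_assoc, mul_inv_cancel₀ hm0, one_mul]
        have h4 : m * (m⁻¹ * M 1 1) = M 1 1 := by
          rw [← mul_assoc, mul_inv_cancel₀ hm0, one_mul]
        simp only
        linear_combination (m * M 1 1) * hdet + (d 1 0) * h3 - (d 0 0) * h4 +
          (m * d 1 0) * hw1 - (m * d 0 0) * hw2
    have hCr : 0 < g' 1 0 * g' 0 1 → Cr Sp (mh g) (mh d) := by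
      intro h
      unfold Cr
      rw [← map_inv]
      apply hCR1 g d d⁻¹ _ _ hgtr hmd hmd' hAv hAw
      rw [hqv, hqw]
      linarith
    have hCr' : Cr Sp (mh g) (mh d) → 0 < g' 1 0 * g' 0 1 := by
      intro h
      unfold Cr at h
      rw [← map_inv] at h
      by_contra h1
      have h2 : g' 1 0 * g' 0 1 < 0 :=
        lt_of_le_of_ne (not_lt.1 h1) (mul_ne_zero hc hb)
      refine hCR2 g d d⁻¹ _ _ hgtr hmd hmd' hAv hAw ?_ h
      rw [hqv, hqw]
      linarith
    have hmono : ∀ s t : ℝ, s < t → ((m ^ 2) ^ s) ^ 2 < ((m ^ 2) ^ t) ^ 2 := by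
      intro s t hst
      have h1 : (m ^ 2) ^ s < (m ^ 2) ^ t := Real.rpow_lt_rpow_of_exponent_lt hq hst
      have h2 : 0 < (m ^ 2) ^ s := Real.rpow_pos_of_pos (by linarith) s
      exact pow_lt_pow_left₀ h1 h2.le (by norm_num)
    refine ⟨?_, ?_⟩
    · intro h
      have h1 := hCr' h
      have h2 : 0 < g' 0 1 / g' 1 0 := by
        have h3 : g' 0 1 / g' 1 0 = (g' 1 0 * g' 0 1) / (g' 1 0) ^ 2 := by
          field_simp
        rw [h3]
        positivity
      refine ⟨Real.logb (m ^ 2) (Real.sqrt (g' 0 1 / g' 1 0)), ?_⟩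
      obtain ⟨s, hs, e⟩ := hval (Real.logb (m ^ 2) (Real.sqrt (g' 0 1 / g' 1 0)))
      rw [e, Real.rpow_logb (by linarith) (by linarith) (Real.sqrt_pos.2 h2), Real.sq_sqrt h2.le]
      field_simp
      ring
    · intro t₀ h0
      obtain ⟨s0, hs0, e0⟩ := hval t₀
      rw [e0] at h0
      have h1 : g' 0 1 = g' 1 0 * ((m ^ 2) ^ t₀) ^ 2 := by
        have := (mul_eq_zero.1 h0).resolve_left hs0.ne'
        linarith
      have h2 : 0 < ((m ^ 2) ^ t₀) ^ 2 := by
        have := Real.rpow_pos_of_pos (by linarith : 0 < m ^ 2) t₀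
        positivity
      have h3 : 0 < (g' 1 0) ^ 2 := by positivity
      refine ⟨hCr ?_, ?_, ?_⟩
      · rw [h1]
        have : g' 1 0 * (g' 1 0 * ((m ^ 2) ^ t₀) ^ 2) = (g' 1 0) ^ 2 * ((m ^ 2) ^ t₀) ^ 2 := by
          ring
        rw [this]
        positivity
      · intro t ht h
        obtain ⟨s, hs, e⟩ := hval t
        rw [e] at h
        have h4 := (mul_eq_zero.1 h).resolve_left hs.ne'
        rw [h1] at h4
        have h5 : g' 1 0 * (((m ^ 2) ^ t) ^ 2 - ((m ^ 2) ^ t₀) ^ 2) = 0 := by linarith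
        have h6 := (mul_eq_zero.1 h5).resolve_left hc
        rcases lt_or_gt_of_ne ht with h7 | h7
        · have := hmono t t₀ h7
          linarith
        · have := hmono t₀ t h7
          linarith
      · intro s t hs ht
        obtain ⟨r1, hr1, e1⟩ := hval s
        obtain ⟨r2, hr2, e2⟩ := hval t
        rw [e1, e2, h1]
        have h4 := hmono s t₀ hs
        have h5 := hmono t₀ t ht
        have h6 : r1 * (g' 1 0 * ((m ^ 2) ^ s) ^ 2 - g' 1 0 * ((m ^ 2) ^ t₀) ^ 2) *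
            (r2 * (g' 1 0 * ((m ^ 2) ^ t) ^ 2 - g' 1 0 * ((m ^ 2) ^ t₀) ^ 2)) =
            -((r1 * r2 * (g' 1 0) ^ 2) * ((((m ^ 2) ^ t₀) ^ 2 - ((m ^ 2) ^ s) ^ 2) *
              (((m ^ 2) ^ t) ^ 2 - ((m ^ 2) ^ t₀) ^ 2))) := by ring
        rw [h6]
        have h7 : 0 < (r1 * r2 * (g' 1 0) ^ 2) * ((((m ^ 2) ^ t₀) ^ 2 - ((m ^ 2) ^ s) ^ 2) *
              (((m ^ 2) ^ t) ^ 2 - ((m ^ 2) ^ t₀) ^ 2)) := by
          apply mul_pos
          · positivity
          · exact mul_pos (by linarith) (by linarith)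
        linarith

end Pool.Agent.Helper69.LN
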