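import Pool.Agent.Helper85.LN.Goals

/-!
# Packet BIREV: bireversible automata have certificates
-/

namespace Pool.Agent.Helper69.LN

open Pool.Agent.Helper85.LN

theorem birev : S_BIREV := by
  intro m d A hA
  obtain ⟨h1, h2⟩ := hA
  let e : Fin d → (Fin m ≃ Fin m) := fun a =>
    Equiv.ofBijective (fun q => A.tr q a) (Finite.injective_iff_bijective.1 (h1 a))
  have he : ∀ a q, e a q = A.tr q a := fun a q => rfl
  have hinj : ∀ p : Fin m, Function.Injective fun a => A.out ((e a).symm p) a := by
    intro p a a' haa
    simp only at haa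
    have k1 : A.tr ((e a).symm p) a = p := (he a _).symm.trans ((e a).apply_symm_apply p)
    have k2 : A.tr ((e a').symm p) a' = p := (he a' _).symm.trans ((e a').apply_symm_apply p)
    have k3 : (e a).symm p = (e a').symm p := by
      apply h2 (A.out ((e a).symm p) a)
      simp only
      rw [Equiv.symm_apply_apply, k1]
      rw [haa, Equiv.symm_apply_apply, k2]
    rw [← k3] at haa
    exact (A.out ((e a).symm p)).injective haa
  refine ⟨[], d, ⟨fun p => Equiv.ofBijective _ (Finite.injective_iff_bijective.1 (hinj p)),
    fun p a => [((e a).symm p, true)]⟩, id, fun _ => [], fun r hr => absurd hr List.not_mem_nil,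
    fun r hr => absurd hr List.not_mem_nil, fun q a => ?_⟩
  have k1 : (e a).symm (A.tr q a) = q := by rw [← he, Equiv.symm_apply_apply]
  constructor
  · show A.out ((e a).symm (A.tr q a)) a = A.out q a
    rw [k1]
  · show Eqv [] ([((e a).symm (A.tr q a), true)] ++ []) ([] ++ [(q, true)])
    rw [k1]
    exact Eqv.refl _

end Pool.Agent.Helper69.LN
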