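import Pool.Agent.Helper85.LN.Goals

/-!
# Packet VIOS: violations of local nontriviality are finite objects
-/

namespace Pool.Agent.Helper69.LN

open Pool.Agent.Helper85.LN

variable {Q X : Type*} (A : Auto Q X)

theorem secw_cons (w : List (S Q)) (a : X) (u : List X) :
    secw A w (a :: u) = secw A (A.toWA.scw w a) u := rfl

theorem val_app (w : List (S Q)) (u x : List X) :
    A.val w (u ++ x) = A.val w u ++ A.val (secw A w u) x := by
  induction u generalizing w with
  | nil => rw [A.val_apply_nil]; rfl
  | cons a u ih =>
    rw [List.cons_append, A.val_apply_cons, A.val_apply_cons, ih, secw_cons, List.cons_append]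

theorem secw_length (w : List (S Q)) (u : List X) : (secw A w u).length = w.length := by
  induction u generalizing w with
  | nil => rfl
  | cons a u ih => rw [secw_cons, ih, A.scw_length]

theorem val_fix (L : List (List (S Q)))
    (hL : ∀ s ∈ L, ∀ a, A.toWA.ltw s a = a ∧ A.toWA.scw s a ∈ L) (x : List X) :
    ∀ s ∈ L, A.val s x = x := by
  induction x with
  | nil => intro s _; exact A.val_apply_nil s
  | cons a x ih =>
    intro s hs
    rw [A.val_apply_cons, (hL s hs a).1, ih _ (hL s hs a).2]

theorem vios : S_VIOS := by
  intro m d A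
  constructor
  · intro h
    unfold Auto.LN at h
    push Not at h
    obtain ⟨g, hg, u, hu, hne⟩ := h
    obtain ⟨w, rfl⟩ := (A.mem_G_iff g).1 hg
    obtain ⟨v, hv⟩ : ∃ v, A.val w v ≠ v := by
      by_contra hcon
      push Not at hcon
      exact hne (Equiv.ext hcon)
    have h1 : A.val w u = u := by
      have := hu []
      simpa using this
    have h2 : A.val (secw A w u) = 1 := by
      ext1 x
      have h3 := hu x
      rw [val_app, h1] at h3
      exact List.append_cancel_left h3
    have hfin : {s : List (S (Fin m)) | s.length = w.length ∧ A.val s = 1}.Finite :=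
      (List.finite_length_eq (S (Fin m)) w.length).subset fun s hs => hs.1
    refine ⟨w, u, v, hfin.toFinset.toList, h1, ?_, ?_, hv⟩
    · rw [Finset.mem_toList, Set.Finite.mem_toFinset]
      exact ⟨secw_length A w u, h2⟩
    · intro s hs a
      rw [Finset.mem_toList, Set.Finite.mem_toFinset] at hs
      refine ⟨A.ltw_of_val_eq_one s hs.2 a, ?_⟩
      rw [Finset.mem_toList, Set.Finite.mem_toFinset]
      exact ⟨(A.scw_length s a).trans hs.1, A.scw_of_val_eq_one s hs.2 a⟩
  · rintro ⟨w, u, v, L, h1, h2, h3, h4⟩ hLN
    apply h4
    have h5 : A.val w = 1 := by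
      apply hLN _ (A.val_mem w) u
      intro x
      rw [val_app, h1, val_fix A L h3 x _ h2]
    rw [h5]
    rfl

end Pool.Agent.Helper69.LN
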